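import Pool.Agent.W798.SP.Stm

/-! SPX-EN: Solymosi's energy inequality -/

set_option autoImplicit false

open Finset
open scoped Classical Pointwise

namespace Pool.Agent.W637.SP

open Pool.Agent.W798.SP

/-- the points below the line of slope `l` -/
noncomputable def NN (A : Finset ℝ) (l : ℝ) : Finset (ℝ × ℝ) :=
  ((A + A) ×ˢ (A + A)).filter (fun p => p.2 < l * p.1)

theorem pos_add {A : Finset ℝ} (hA : ∀ x ∈ A, 0 < x) {u : ℝ} (hu : u ∈ A + A) : 0 < u := by
  obtain ⟨x, hx, y, hy, rfl⟩ := Finset.mem_add.1 hu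
  exact add_pos (hA x hx) (hA y hy)

theorem mem_fib {A : Finset ℝ} {l x : ℝ} : x ∈ fib A l ↔ x ∈ A ∧ l * x ∈ A := by
  unfold fib; rw [Finset.mem_filter]

theorem step {A : Finset ℝ} (hA : ∀ x ∈ A, 0 < x) {l m : ℝ} (hlm : l < m) :
    (NN A l).card + (fib A l).card * (fib A m).card ≤ (NN A m).card := by
  set f : ℝ × ℝ → ℝ × ℝ := fun p => (p.1 + p.2, l * p.1 + m * p.2) with hf
  have hinj : Set.InjOn f (fib A l ×ˢ fib A m : Finset (ℝ × ℝ)) := by
    rintro ⟨x, y⟩ _ ⟨x', y'⟩ _ h
    simp only [hf, Prod.mk.injEq] at h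
    obtain ⟨h1, h2⟩ := h
    have h3 : (m - l) * (y - y') = 0 := by linear_combination h2 - l * h1
    have h4 : y = y' := by
      rcases mul_eq_zero.1 h3 with h | h
      · exact absurd h (sub_pos.2 hlm).ne'
      · exact sub_eq_zero.1 h
    have h5 : x = x' := by rw [h4] at h1; linarith
    rw [h4, h5]
  have hdisj : Disjoint (NN A l) ((fib A l ×ˢ fib A m).image f) := by
    rw [Finset.disjoint_left]
    rintro p hp hp'
    obtain ⟨⟨x, y⟩, hxy, rfl⟩ := Finset.mem_image.1 hp'
    rw [Finset.mem_product] at hxy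
    have hy : 0 < y := hA y (mem_fib.1 hxy.2).1
    have h1 := (Finset.mem_filter.1 hp).2
    simp only [hf] at h1
    nlinarith
  have hsub : NN A l ∪ (fib A l ×ˢ fib A m).image f ⊆ NN A m := by
    apply Finset.union_subset
    · intro p hp
      obtain ⟨h1, h2⟩ := Finset.mem_filter.1 hp
      refine Finset.mem_filter.2 ⟨h1, ?_⟩
      have h3 : 0 < p.1 := pos_add hA (Finset.mem_product.1 h1).1
      nlinarith
    · intro p hp
      obtain ⟨⟨x, y⟩, hxy, rfl⟩ := Finset.mem_image.1 hp
      rw [Finset.mem_product] at hxy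
      obtain ⟨hx, hy⟩ := hxy
      have hx := mem_fib.1 hx
      have hy := mem_fib.1 hy
      refine Finset.mem_filter.2 ⟨Finset.mem_product.2 ⟨Finset.add_mem_add hx.1 hy.1,
        Finset.add_mem_add hx.2 hy.2⟩, ?_⟩
      have h3 : 0 < x := hA x hx.1
      simp only [hf]
      nlinarith
  calc (NN A l).card + (fib A l).card * (fib A m).card
      = (NN A l).card + ((fib A l ×ˢ fib A m).image f).card := by
        rw [Finset.card_image_of_injOn hinj, Finset.card_product]
    _ = (NN A l ∪ (fib A l ×ˢ fib A m).image f).card := (Finset.card_union_of_disjoint hdisj).symm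
    _ ≤ (NN A m).card := Finset.card_le_card hsub

theorem chain {A : Finset ℝ} (hA : ∀ x ∈ A, 0 < x) (k : ℕ) (S : Finset ℝ) :
    (∀ l ∈ S, k ≤ (fib A l).card) → ∀ l ∈ S, (∀ m ∈ S, m ≤ l) →
      (S.card - 1) * k ^ 2 ≤ (NN A l).card := by
  induction S using Finset.induction_on_max with
  | empty => intro _ l hl; simp at hl
  | insert a s ha ih =>
    intro hk l hl hmax
    have hla : l = a := by
      rcases Finset.mem_insert.1 hl with h | h
      · exact h
      · exact absurd (hmax a (Finset.mem_insert_self a s)) (not_le.2 (ha l h))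
    subst hla
    have hns : l ∉ s := fun h => lt_irrefl _ (ha l h)
    rw [Finset.card_insert_of_notMem hns, Nat.add_sub_cancel]
    rcases s.eq_empty_or_nonempty with rfl | hne
    · simp
    · have h1 := ih (fun m hm => hk m (Finset.mem_insert_of_mem hm)) (s.max' hne)
        (s.max'_mem hne) (fun m hm => s.le_max' m hm)
      have h2 := step hA (ha _ (s.max'_mem hne))
      have h3 : k ^ 2 ≤ (fib A (s.max' hne)).card * (fib A l).card := by
        rw [pow_two]
        exact Nat.mul_le_mul (hk _ (Finset.mem_insert_of_mem (s.max'_mem hne)))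
          (hk _ (Finset.mem_insert_self l s))
      have h4 : s.card * k ^ 2 = (s.card - 1) * k ^ 2 + k ^ 2 := by
        have : 1 ≤ s.card := hne.card_pos
        obtain ⟨c, hc⟩ := Nat.exists_eq_add_of_le this
        rw [hc, Nat.add_sub_cancel_left]; ring
      omega

theorem card_le_add {A : Finset ℝ} (hne : A.Nonempty) : A.card ≤ (A + A).card :=
  Finset.card_le_card_add_right hne

theorem class_le {A : Finset ℝ} (hA : ∀ x ∈ A, 0 < x) (k : ℕ) (S : Finset ℝ)
    (hS : ∀ l ∈ S, k ≤ (fib A l).card) (hne : A.Nonempty) :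
    S.card * k ^ 2 ≤ 2 * (A + A).card ^ 2 := by
  rcases S.eq_empty_or_nonempty with rfl | hSne
  · simp
  have h1 := chain hA k S hS (S.max' hSne) (S.max'_mem hSne) (fun m hm => S.le_max' m hm)
  have h2 : (NN A (S.max' hSne)).card ≤ (A + A).card ^ 2 := by
    unfold NN
    refine (Finset.card_filter_le _ _).trans ?_
    rw [Finset.card_product, pow_two]
  have h3 : 1 ≤ S.card := hSne.card_pos
  obtain ⟨c, hc⟩ := Nat.exists_eq_add_of_le h3
  rw [hc, Nat.add_sub_cancel_left] at h1
  have h4 : k ^ 2 ≤ (A + A).card ^ 2 := by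
    apply Nat.pow_le_pow_left
    calc k ≤ (fib A (S.max' hSne)).card := hS _ (S.max'_mem hSne)
      _ ≤ A.card := Finset.card_le_card (Finset.filter_subset _ _)
      _ ≤ (A + A).card := card_le_add hne
  rw [hc]
  calc (1 + c) * k ^ 2 = k ^ 2 + c * k ^ 2 := by ring
    _ ≤ (A + A).card ^ 2 + (A + A).card ^ 2 := add_le_add h4 (h1.trans h2)
    _ = 2 * (A + A).card ^ 2 := by ring

theorem en_holds : S_EN := by
  intro A hA
  rcases A.eq_empty_or_nonempty with rfl | hne
  · simp [en]
  set J := Nat.log 2 A.card with hJ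
  have hfib : ∀ l ∈ A / A, 1 ≤ (fib A l).card := by
    intro l hl
    obtain ⟨x, hx, y, hy, rfl⟩ := Finset.mem_div.1 hl
    apply Finset.card_pos.2
    refine ⟨y, mem_fib.2 ⟨hy, ?_⟩⟩
    rw [div_mul_cancel₀ _ (hA y hy).ne']
    exact hx
  have hmaps : ∀ l ∈ A / A, Nat.log 2 (fib A l).card ∈ Finset.range (J + 1) := by
    intro l _
    rw [Finset.mem_range, Nat.lt_succ_iff]
    exact Nat.log_mono_right (Finset.card_le_card (Finset.filter_subset _ _))
  unfold en
  rw [← Finset.sum_fiberwise_of_maps_to hmaps]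
  calc ∑ j ∈ Finset.range (J + 1), ∑ l ∈ (A / A).filter (fun l => Nat.log 2 (fib A l).card = j),
        (fib A l).card ^ 2
      ≤ ∑ _j ∈ Finset.range (J + 1), 8 * (A + A).card ^ 2 := by
        apply Finset.sum_le_sum
        intro j _
        have h1 : ∑ l ∈ (A / A).filter (fun l => Nat.log 2 (fib A l).card = j),
            (fib A l).card ^ 2 ≤
            ((A / A).filter (fun l => Nat.log 2 (fib A l).card = j)).card * (4 * (2 ^ j) ^ 2) := by
          rw [← smul_eq_mul]
          apply Finset.sum_le_card_nsmul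
          intro l hl
          obtain ⟨hl1, hl2⟩ := Finset.mem_filter.1 hl
          have h2 : (fib A l).card < 2 ^ (j + 1) := by
            rw [← hl2]
            exact Nat.lt_pow_succ_log_self (by norm_num) _
          calc (fib A l).card ^ 2 ≤ (2 ^ (j + 1)) ^ 2 := Nat.pow_le_pow_left h2.le 2
            _ = 4 * (2 ^ j) ^ 2 := by rw [pow_succ]; ring
        have h2 := class_le hA (2 ^ j) ((A / A).filter (fun l => Nat.log 2 (fib A l).card = j))
          (by
            intro l hl
            obtain ⟨hl1, hl2⟩ := Finset.mem_filter.1 hl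
            rw [← hl2]
            exact Nat.pow_log_le_self 2 (by have := hfib l hl1; omega)) hne
        calc _ ≤ _ := h1
          _ = 4 * (((A / A).filter (fun l => Nat.log 2 (fib A l).card = j)).card *
              (2 ^ j) ^ 2) := by ring
          _ ≤ 4 * (2 * (A + A).card ^ 2) := Nat.mul_le_mul_left 4 h2
          _ = 8 * (A + A).card ^ 2 := by ring
    _ = 8 * (A + A).card ^ 2 * (J + 1) := by
        rw [Finset.sum_const, Finset.card_range, smul_eq_mul]; ring

end Pool.Agent.W637.SP
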